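import Pool.Agent.Helper32_ND.Stmts

/-!
# Module DIA (squad ND)
-/

set_option autoImplicit false
set_option linter.unusedVariables false
set_option linter.unusedSectionVars false

namespace Pool.Agent.ND.H97

open Finset Pool.Agent.ND

section

variable {ι : Type} [Fintype ι] [DecidableEq ι] {n : ℕ}

theorem mem_clS (L : ι → Fin n → ℂ) (S : Finset (Fin n)) (i : ι) :
    i ∈ clS L S ↔ ∀ p, L i p ≠ 0 → p ∈ S := by
  unfold clS
  simp

theorem cl_comp (A : Arr ι n) (B : Fin n → ι) (hB : ∀ p, A.L (B p) = Pi.single p 1) {r : ℕ}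
    (g : Fin r → Fin n) : A.cl (B ∘ g) = clS A.L (univ.image g) := by
  classical
  ext i
  rw [A.mem_cl, mem_clS]
  have h0 : (Set.range fun k => A.L ((B ∘ g) k)) = Set.range fun k => (Pi.single (g k) 1 :
      Fin n → ℂ) := by
    congr 1
    funext k
    exact hB (g k)
  rw [h0]
  constructor
  · intro h p hp
    by_contra hc
    apply hp
    have h1 : ∀ v ∈ Submodule.span ℂ (Set.range fun k => (Pi.single (g k) 1 : Fin n → ℂ)),
        v p = 0 := by
      intro v hv
      induction hv using Submodule.span_induction with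
      | mem x hx =>
        obtain ⟨k, rfl⟩ := hx
        have : p ≠ g k := by
          rintro rfl
          exact hc (mem_image.2 ⟨k, mem_univ _, rfl⟩)
        simp [this]
      | zero => rfl
      | add x y _ _ hx hy => simp [hx, hy]
      | smul a x _ hx => simp [hx]
    exact h1 _ h
  · intro h
    have h2 : A.L i = ∑ p, A.L i p • (Pi.single p 1 : Fin n → ℂ) := by
      funext q
      simp [Finset.sum_apply, Pi.single_apply]
    rw [h2]
    refine Submodule.sum_mem _ fun p _ => ?_
    by_cases hp : A.L i p = 0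
    · rw [hp, zero_smul]; exact Submodule.zero_mem _
    · obtain ⟨k, -, rfl⟩ := mem_image.1 (h p hp)
      exact Submodule.smul_mem _ _ (Submodule.subset_span ⟨k, rfl⟩)

theorem ind_comp (A : Arr ι n) (B : Fin n → ι) (hB : ∀ p, A.L (B p) = Pi.single p 1) {r : ℕ}
    (g : Fin r → Fin n) (hg : Function.Injective g) : A.Ind (B ∘ g) := by
  unfold Arr.Ind
  have h0 : (fun k => A.L ((B ∘ g) k)) = (Pi.basisFun ℂ (Fin n)) ∘ g := by
    funext k
    simp only [Function.comp_apply, Pi.basisFun_apply]
    exact hB (g k)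
  rw [h0]
  exact (Pi.basisFun ℂ (Fin n)).linearIndependent.comp g hg

variable {K : Type} [Field K]

theorem prod_split (w : Finset (Fin n) → K) (S : Finset (Fin n)) (p : Fin n) (hp : p ∈ S) :
    ∏ T ∈ S.powerset.filter (fun T => T.Nonempty), w T
      = w S * ((∏ T ∈ S.powerset.filter (fun T => T ≠ S ∧ p ∈ T), w T) *
        ∏ T ∈ (S.erase p).powerset.filter (fun T => T.Nonempty), w T) := by
  classical
  have hS : S ∈ S.powerset.filter (fun T => T.Nonempty) := by
    simp only [mem_filter, mem_powerset, subset_refl, true_and]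
    exact ⟨p, hp⟩
  rw [← mul_prod_erase _ _ hS]
  congr 1
  rw [← prod_filter_mul_prod_filter_not ((S.powerset.filter (fun T => T.Nonempty)).erase S)
    (fun T => p ∈ T)]
  congr 1
  · refine prod_congr ?_ fun _ _ => rfl
    ext T
    simp only [mem_filter, mem_erase, mem_powerset]
    constructor
    · rintro ⟨⟨h1, h2, h3⟩, h4⟩; exact ⟨h2, h1, h4⟩
    · rintro ⟨h1, h2, h3⟩; exact ⟨⟨h2, h1, ⟨p, h3⟩⟩, h3⟩
  · refine prod_congr ?_ fun _ _ => rfl
    ext T
    simp only [mem_filter, mem_erase, mem_powerset, subset_erase]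
    constructor
    · rintro ⟨⟨h1, h2, h3⟩, h4⟩; exact ⟨⟨h2, h4⟩, h3⟩
    · rintro ⟨⟨h1, h2⟩, h3⟩
      refine ⟨⟨?_, h1, h3⟩, h2⟩
      rintro rfl
      exact h2 hp

theorem main (hR : RlocStmt) (A : Arr ι n) (B : Fin n → ι)
    (hB : ∀ p, A.L (B p) = Pi.single p 1) (ρ : ι → K) (hNR : NR ρ) :
    ∀ (r : ℕ) (g : Fin r → Fin n), Function.Injective g →
    R A ρ r (e A K (B ∘ g)) (e A K (B ∘ g))
      * (∏ S ∈ (univ.image g).powerset.filter (fun S => S.Nonempty), ∑ i ∈ clS A.L S, ρ i)
      = gpol (fun S => ∑ i ∈ clS A.L S, ρ i) r (univ.image g) := by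
  classical
  obtain ⟨-, -, -, h4, h5⟩ := hR ι n A K
  intro r
  induction r with
  | zero =>
    intro g hg
    have h1 : (univ.image g) = ∅ := by simp
    have h2 : ((∅ : Finset (Fin n)).powerset.filter (fun S => S.Nonempty)) = ∅ := by
      ext T
      simp [nonempty_iff_ne_empty]
    rw [h4, h1, h2, prod_empty, mul_one]
    rfl
  | succ r ih =>
    intro g hg
    have hw : ∑ i ∈ clS A.L (univ.image g), ρ i ≠ 0 := by
      refine hNR _ ⟨B (g 0), ?_⟩
      rw [mem_clS]
      intro p hp
      rw [hB] at hp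
      have : p = g 0 := by
        by_contra hc
        exact hp (by simp [hc])
      rw [this]
      exact mem_image.2 ⟨0, mem_univ _, rfl⟩
    rw [h5 ρ r (B ∘ g) (ind_comp A B hB g hg), cl_comp A B hB g]
    have e1 : gpol (fun S => ∑ i ∈ clS A.L S, ρ i) (r + 1) (univ.image g)
        = ∑ k : Fin (r + 1), (∏ T ∈ (univ.image g).powerset.filter
            (fun T => T ≠ univ.image g ∧ g k ∈ T), ∑ i ∈ clS A.L T, ρ i) *
          gpol (fun S => ∑ i ∈ clS A.L S, ρ i) r ((univ.image g).erase (g k)) := by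
      rw [gpol, sum_image (fun a _ b _ h => hg h)]
    rw [e1, mul_assoc, mul_comm, mul_assoc, sum_mul]
    refine sum_congr rfl fun k _ => ?_
    have him : (univ.image (g ∘ k.succAbove)) = (univ.image g).erase (g k) := by
      ext p
      simp only [mem_image, mem_univ, true_and, mem_erase, Function.comp_apply]
      constructor
      · rintro ⟨j, rfl⟩
        exact ⟨fun h => Fin.succAbove_ne k j (hg h), _, rfl⟩
      · rintro ⟨h1, j, rfl⟩
        obtain ⟨j', hj'⟩ := Fin.exists_succAbove_eq (x := j) (y := k) (fun h => h1 (by rw [h]))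
        exact ⟨j', by rw [hj']⟩
    have hik := ih (g ∘ k.succAbove) (hg.comp Fin.succAbove_right_injective)
    rw [him] at hik
    rw [← hik, prod_split _ (univ.image g) (g k) (mem_image.2 ⟨k, mem_univ _, rfl⟩),
      Function.comp_assoc]
    field_simp

theorem dia (hR : RlocStmt) : DiaStmt := by
  intro ι _ _ M A K _ B hB ρ hNR
  have h := main hR A B hB ρ hNR (M + 2) id Function.injective_id
  rw [image_id, Function.comp_id] at h
  rw [← h]
  congr 1

end

end Pool.Agent.ND.H97
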