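import Pool.Agent.Helper32_ND.Stmts

/-!
# Module SPN (squad ND)
-/

set_option autoImplicit false
set_option linter.unusedVariables false
set_option linter.unusedSectionVars false

namespace Pool.Agent.ND.H97

open Finset Pool.Agent.ND

theorem spn : SpnStmt := by
  classical
  intro ι _ _ n L B hB hn hL hc v hv
  set W : Submodule ℂ (ι → ℂ) := Submodule.span ℂ {w : ι → ℂ | ∃ (j : ι) (p : Fin n), L j p ≠ 0 ∧
      w = fun i => ev j i - ev (B p) i} with hW
  have hgen : ∀ (j : ι) (p : Fin n), L j p ≠ 0 →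
      (ev j - ev (B p) : ι → ℂ) ∈ W := by
    intro j p hp
    exact Submodule.subset_span ⟨j, p, hp, rfl⟩
  let p0 : Fin n := ⟨0, hn⟩
  have h1 : ∀ p, (ev (B p) - ev (B p0) : ι → ℂ) ∈ W := by
    by_contra hcon
    push Not at hcon
    obtain ⟨p1, hp1⟩ := hcon
    let S : Finset (Fin n) := univ.filter fun p => (ev (B p) - ev (B p0) : ι → ℂ) ∈ W
    have hS : ∀ p, p ∈ S ↔ (ev (B p) - ev (B p0) : ι → ℂ) ∈ W := fun p => by simp [S]
    obtain ⟨i, ⟨p, hp, hip⟩, p', hp', hip'⟩ := hc S ⟨p0, by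
      rw [hS, sub_self]; exact Submodule.zero_mem _⟩ (by
      intro h
      exact hp1 ((hS p1).1 (by rw [h]; exact mem_univ _)))
    apply hp'
    rw [hS] at hp ⊢
    have h2 := hgen i p hip
    have h3 := hgen i p' hip'
    have h4 : (ev (B p') - ev (B p0) : ι → ℂ)
        = (ev i - ev (B p)) - (ev i - ev (B p')) + (ev (B p) - ev (B p0)) := by abel
    rw [h4]
    exact W.add_mem (W.sub_mem h2 h3) hp
  have h2 : ∀ i, (ev i - ev (B p0) : ι → ℂ) ∈ W := by
    intro i
    obtain ⟨p, hp⟩ : ∃ p, L i p ≠ 0 := by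
      by_contra hcon
      push Not at hcon
      exact hL i (funext hcon)
    have h4 : (ev i - ev (B p0) : ι → ℂ) = (ev i - ev (B p)) + (ev (B p) - ev (B p0)) := by abel
    rw [h4]
    exact W.add_mem (hgen i p hp) (h1 p)
  have h3 : v = ∑ i, v i • (ev i - ev (B p0) : ι → ℂ) := by
    have h5 : v = ∑ i, v i • (ev i : ι → ℂ) := by
      funext j
      simp [ev, Finset.sum_apply, Pi.single_apply]
    simp only [smul_sub, sum_sub_distrib]
    rw [← sum_smul, hv, zero_smul, sub_zero]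
    exact h5
  rw [h3]
  exact Submodule.sum_mem _ fun i _ => W.smul_mem _ (h2 i)

end Pool.Agent.ND.H97
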